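import Pool.Agent.X39.Near.Mhz

/-!
# Odd double Hurwitz zeta values have no linear relations, at ALL algebraic points close to any number outside a set of dimension zero

The odd double zeta values `ζ(2a + 1, 2b - 1)` of the question are the values at `z = 1` of the functions
`ζ(2a + 1, 2b - 1; z)`, the sums of `1 / ((z + m) ^ (2a + 1) (z + n) ^ (2b - 1))` over `m > n ≥ 0` (`dz`). At `z = 1` there
are at least as many linear relations in weight `k` as cusp forms. We prove, outside ONE set `E` of complex numbers of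
Hausdorff dimension `0` (for all weights, number fields, degrees and scales), that for every complex `x` the numbers `1`,
`ζ(k; t)`, `2 ≤ k ≤ K + 1`, and `ζ(2a + 1, 2b - 1; t)`, `1 ≤ a, b ≤ K`, at ALL algebraic points `t` of a number field close to
`x`, have no linear relation of bounded degree in arbitrary constants `ξ_i` and polynomial height, even approximately.

Proof: the algebra of the multiple Hurwitz zeta functions is generated by functions algebraically independent over `ℂ(z)`,
and they are linearly independent polynomials in them (`Pool.Agent.X142.MZ`); the levels of the library give, on compact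
sets, at most `C T ^ ε` exceptional points of height `T`, for every `ε > 0`, and so a limsup set of dimension `0`
(`Pool.Agent.X39.Near`); all `K` are treated at the same time.
-/

set_option autoImplicit false

open MvPolynomial NumberField

namespace Pool.Agent.Results.MP_9206b6_nt.ApproximationsOfAllNumbers

open Pool.Agent.X39.Near (Size)
open Pool.Agent.X142.MZ (mhz Adm)

/-- `ζ(k; z)`, the sum of `1 / (z + m) ^ k` over `m ≥ 0` -/
noncomputable def sz (k : ℕ) (z : ℂ) : ℂ := ∑' m : ℕ, ((z + m) ^ k)⁻¹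

/-- `ζ(k, l; z)`, the sum of `1 / ((z + m) ^ k (z + n) ^ l)` over `m > n ≥ 0` -/
noncomputable def dz (k l : ℕ) (z : ℂ) : ℂ := ∑' n : ℕ, ((z + n) ^ l)⁻¹ * ∑' m : ℕ, ((z + n + 1 + m) ^ k)⁻¹

/-- the functions `1`; `ζ(k + 2; z)`, `0 ≤ k < K`; `ζ(2a + 3, 2b + 1; z)`, `0 ≤ a, b < K` -/
noncomputable def value (K : ℕ) : Option (Fin K ⊕ Fin K × Fin K) → ℂ → ℂ
  | none, _ => 1
  | some (Sum.inl k), z => sz (k + 2) z
  | some (Sum.inr p), z => dz (2 * p.1 + 3) (2 * p.2 + 1) z

/-- The numbers `value K i (t)` are independent up to degree `d`, height `T ^ A` and precision `T ^ (-B)`: for all polynomials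
`c_i` of degree at most `d` in each of the variables `X_1, …, X_g`, with coefficients in the integers of `F` all of whose
conjugates are at most `T ^ A`, the absolute value of the linear form with the coefficients `c_i(ξ)` in these numbers is at
least `T ^ (-B)` times that of each `c_i(ξ)`. -/
def Independent {g : ℕ} (ξ : Fin g → ℂ) (K : ℕ) (F : Type) [Field F] [NumberField F] (ι : F →+* ℂ)
    (d : ℕ) (A B T : ℝ) (t : F) : Prop :=
  ∀ c : Option (Fin K ⊕ Fin K × Fin K) → MvPolynomial (Fin g) (𝓞 F), (∀ i v, (c i).degreeOf v ≤ d) →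
    (∀ i m (φ : F →+* ℂ), ‖φ ((c i).coeff m : 𝓞 F)‖ ≤ T ^ A) → ∀ i₀,
    T ^ (-B) * ‖eval₂ (ι.comp (algebraMap (𝓞 F) F)) ξ (c i₀)‖ ≤
      ‖∑ i, eval₂ (ι.comp (algebraMap (𝓞 F) F)) ξ (c i) * value K i (ι t)‖

/-- the index -/
def idx (K : ℕ) : Option (Fin K ⊕ Fin K × Fin K) → List ℕ
  | none => []
  | some (Sum.inl k) => [k + 2]
  | some (Sum.inr p) => [2 * p.2 + 1, 2 * p.1 + 3]

theorem idx_inj (K : ℕ) : Function.Injective (idx K) := by
  rintro (_ | k | p) (_ | l | q) h
  · rfl
  · simp [idx] at h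
  · simp [idx] at h
  · simp [idx] at h
  · have h1 : (k : ℕ) = l := by simpa [idx] using h
    rw [Fin.ext h1]
  · simp [idx] at h
  · simp [idx] at h
  · simp [idx] at h
  · have h1 : (p.2 : ℕ) = q.2 ∧ (p.1 : ℕ) = q.1 := by simpa [idx] using h
    rw [Prod.ext (Fin.ext h1.2) (Fin.ext h1.1)]

theorem idx_adm (K : ℕ) : ∀ i, Adm (idx K i) := by
  rintro (_ | k | p)
  · exact ⟨by simp [idx], by simp [idx]⟩
  · exact ⟨by simp [idx], by simp [idx]⟩
  · exact ⟨by simp [idx], by simp [idx]⟩

theorem mhz_idx (K : ℕ) (i : Option (Fin K ⊕ Fin K × Fin K)) (z : ℂ) : mhz (idx K i) z = value K i z := by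
  rcases i with _ | k | p
  · rfl
  · simp [idx, value, mhz, sz]
  · simp [idx, value, mhz, dz]

theorem independent_of {g : ℕ} {ξ : Fin g → ℂ} {K : ℕ} {F : Type} [Field F] [NumberField F] {ι : F →+* ℂ}
    {d : ℕ} {A B T : ℝ} {t : F}
    (h : Pool.Agent.X39.Near.Bound ξ (Finset.univ.image (idx K)) F ι d A B T t) : Independent ξ K F ι d A B T t := by
  classical
  intro c hcd hcA i₀
  have hc : ∀ i, Function.extend (idx K) c 0 (idx K i) = c i := fun i => (idx_inj K).extend_apply c 0 i
  have h1 := h (Function.extend (idx K) c 0) (fun s hs v => by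
    obtain ⟨i, -, rfl⟩ := Finset.mem_image.1 hs
    rw [hc]
    exact hcd i v) (fun s hs m φ => by
    obtain ⟨i, -, rfl⟩ := Finset.mem_image.1 hs
    rw [hc]
    exact hcA i m φ) (idx K i₀) (Finset.mem_image_of_mem _ (Finset.mem_univ _))
  rw [Finset.sum_image fun a _ b _ hab => idx_inj K hab] at h1
  simp only [hc, mhz_idx] at h1
  exact h1

/-- **Theorem.** Let `ξ_1, …, ξ_g` be complex numbers. There is a set `E` of complex numbers of Hausdorff dimension `0` such
that for all `K`: (1) for all complex `x` outside `E`, all number fields `F` with an embedding `ι` in `ℂ`, all `d`, `A` and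
`ω > 0` there are `B`, `T₁` such that for all `T ≥ T₁` and all `t ∈ F`, quotients of integers with conjugates at most `T`,
with `|ι t - x| ≤ T ^ (-ω)`, the numbers `1`, `ζ(k; t)` (`2 ≤ k ≤ K + 1`) and `ζ(2a + 1, 2b - 1; t)` (`1 ≤ a, b ≤ K`) are
independent; (2) for all real `x` outside `E` and all `d`, `A` there is `B` such that they are independent over `ℚ` at the
convergents `t` of `x`, at the level of the denominator, from some point on. -/
theorem result {g : ℕ} (ξ : Fin g → ℂ) :
    ∃ E : Set ℂ, dimH E = 0 ∧ ∀ K : ℕ,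
      (∀ x : ℂ, x ∉ E → ∀ (F : Type) [Field F] [NumberField F] (ι : F →+* ℂ)
        (d A : ℕ) (ω : ℝ), 0 < ω → ∃ B T₁ : ℝ, ∀ T : ℝ, T₁ ≤ T → ∀ t : F, Size F T t →
          ‖ι t - x‖ ≤ T ^ (-ω) → Independent ξ K F ι d A B T t) ∧
      ∀ x : ℝ, (x : ℂ) ∉ E → ∀ d A : ℕ, ∃ (B : ℝ) (n₀ : ℕ), ∀ k : ℕ,
        n₀ ≤ k → Independent ξ K ℚ (algebraMap ℚ ℂ) d A B (x.convergent k).den (x.convergent k) := by
  classical
  obtain ⟨E, h1, -, h2⟩ := Pool.Agent.X39.Near.mhz_lin ξ
  refine ⟨E, h1, fun K => ?_⟩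
  obtain ⟨h3, h4⟩ := h2 (Finset.univ.image (idx K)) (fun s hs => by
    obtain ⟨i, -, rfl⟩ := Finset.mem_image.1 hs
    exact idx_adm K i)
  refine ⟨fun x hx F _ _ ι d A ω hω => ?_, fun x hx d A => ?_⟩
  · obtain ⟨B, T₁, h5⟩ := h3 x hx F ι d A ω hω
    exact ⟨B, T₁, fun T hT t ht htx => independent_of (h5 T hT t ht htx)⟩
  · obtain ⟨B, n₀, h5⟩ := h4 x hx d A
    exact ⟨B, n₀, fun k hk => independent_of (h5 k hk)⟩

end Pool.Agent.Results.MP_9206b6_nt.ApproximationsOfAllNumbers
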