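import Mathlib
import Pool.Agent.X142.MZ.Var

set_option autoImplicit false

namespace Pool.Agent.Results.MP_9206b6_nt.HurwitzArguments

open NumberField MvPolynomial

/-- The multiple Hurwitz zeta function
`ζ(s₁,…,s_r; z) = Σ_{0 ≤ k₁ < k₂ < … < k_r} Π (z + k_i)^{-s_i}`, defined by summing over `k₁` last:
`ζ(s₁,…,s_r; z) = Σ_{n ≥ 0} (z+n)^{-s₁} ζ(s₂,…,s_r; z+n+1)`. At `z = 1` it is the multiple zeta value. -/
noncomputable def mhz : List ℕ → ℂ → ℂ
  | [], _ => 1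
  | s :: w, z => ∑' n : ℕ, ((z + n) ^ s)⁻¹ * mhz w (z + n + 1)

/-- Admissible indices: positive entries, the last entry is not `1`; the empty index is admissible. -/
def Adm (s : List ℕ) : Prop := (∀ a ∈ s, 1 ≤ a) ∧ s.getLast? ≠ some 1

/-- `HeightLe F T x`: `x = a / c` with algebraic integers `a`, `c` of `F`, all of whose conjugates are at
most `T` in absolute value. -/
def HeightLe (F : Type) [Field F] [NumberField F] (T : ℝ) (x : F) : Prop :=
  ∃ a c : 𝓞 F, c ≠ 0 ∧ (∀ φ : F →+* ℂ, ‖φ a‖ ≤ T ∧ ‖φ c‖ ≤ T) ∧ x = a / c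

lemma mhz_eq : ∀ (w : List ℕ) (z : ℂ), mhz w z = Pool.Agent.X142.MZ.mhz w z
  | [], _ => rfl
  | s :: w, z => by
    rw [mhz, Pool.Agent.X142.MZ.mhz]
    exact tsum_congr fun n => by rw [mhz_eq w]

/-- The double zeta value `ζ(a,b;z) = Σ_{m > n ≥ 0} (z+m)^{-a} (z+n)^{-b}` (in the notation of the problem,
the first argument belongs to the larger variable). -/
noncomputable def dz (a b : ℕ) (z : ℂ) : ℂ := mhz [b, a] z

/-- The odd double zeta values of even weight at almost all arguments: no small relation, even modulo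
finitely many other multiple zeta values. -/
theorem result (k : ℕ) (hk : 4 ≤ k) (hk2 : Even k) (I : Finset (List ℕ)) (hI : ∀ s ∈ I, Adm s)
    (hIk : ∀ a ∈ Finset.Icc 1 (k / 2 - 1), [k - 2 * a - 1, 2 * a + 1] ∉ I) (L : Set ℂ) (hL : IsCompact L)
    (hL0 : ∀ z ∈ L, ∀ n : ℕ, z ≠ -n) (m g : ℕ) (A ε : ℝ) (hε : 0 < ε) :
    ∃ B C₁ T₀ : ℝ, ∀ (F : Type) [Field F] [NumberField F], Module.finrank ℚ F ≤ m →
      ∀ (ι : F →+* ℂ) (ξ : Fin g → ℂ) (T : ℝ), T₀ ≤ T →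
      ∃ X : Finset F, (X.card : ℝ) ≤ C₁ * T ^ ε ∧ ∀ x : F, ι x ∈ L → HeightLe F T x → x ∉ X →
        ∀ (c : ℕ → Fin g → 𝓞 F) (e : List ℕ → Fin g → 𝓞 F),
          (∀ a ∈ Finset.Icc 1 (k / 2 - 1), ∀ i (φ : F →+* ℂ), ‖φ (c a i)‖ ≤ T ^ A) →
          (∀ s ∈ I, ∀ i (φ : F →+* ℂ), ‖φ (e s i)‖ ≤ T ^ A) →
          ∀ a₀ ∈ Finset.Icc 1 (k / 2 - 1), T ^ (-B) * ‖∑ i, ξ i * ι (c a₀ i)‖ ≤
            ‖∑ a ∈ Finset.Icc 1 (k / 2 - 1), (∑ i, ξ i * ι (c a i)) * dz (2 * a + 1) (k - 2 * a - 1) (ι x) +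
              ∑ s ∈ I, (∑ i, ξ i * ι (e s i)) * mhz s (ι x)‖ := by
  classical
  set O : Finset (List ℕ) := (Finset.Icc 1 (k / 2 - 1)).image fun a => [k - 2 * a - 1, 2 * a + 1] with hO
  have hinj : ∀ a b : ℕ, [k - 2 * a - 1, 2 * a + 1] = [k - 2 * b - 1, 2 * b + 1] → a = b := by
    intro a b h
    have h1 := (List.cons.inj (List.cons.inj h).2).1
    omega
  have hOadm : ∀ s ∈ O, Adm s := by
    intro s hs
    obtain ⟨a, ha, rfl⟩ := Finset.mem_image.1 hs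
    rw [Finset.mem_Icc] at ha
    refine ⟨fun b hb => ?_, ?_⟩
    · simp only [List.mem_cons, List.not_mem_nil, or_false] at hb
      obtain ⟨j, hj⟩ := hk2
      rcases hb with rfl | rfl <;> omega
    · show some (2 * a + 1) ≠ some 1
      intro h
      have := Option.some.inj h
      omega
  have hdisj : Disjoint O I := by
    rw [Finset.disjoint_left]
    intro s hs hsI
    obtain ⟨a, ha, rfl⟩ := Finset.mem_image.1 hs
    exact hIk a ha hsI
  obtain ⟨B, C₁, T₀, H⟩ := Pool.Agent.X142.MZ.mainX (O ∪ I) (fun s hs => by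
    rcases Finset.mem_union.1 hs with h | h
    · exact hOadm s h
    · exact hI s h) L hL hL0 m g A ε hε
  refine ⟨B, C₁, T₀, fun F _ _ hF ι ξ T hT => ?_⟩
  obtain ⟨X, hX, h⟩ := H F hF ι ξ T hT
  refine ⟨X, hX, fun x hxL hx hxX c e hc he a₀ ha₀ => ?_⟩
  obtain ⟨d, hd1, hd2⟩ : ∃ d : List ℕ → Fin g → 𝓞 F,
      (∀ a ∈ Finset.Icc 1 (k / 2 - 1), d [k - 2 * a - 1, 2 * a + 1] = c a) ∧ ∀ s ∈ I, d s = e s := by
    refine ⟨fun s => if s ∈ I then e s else c ((s.getLastD 0 - 1) / 2), fun a ha => ?_, fun s hs => if_pos hs⟩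
    show (if _ then _ else _) = _
    rw [if_neg (hIk a ha)]
    congr 1
    show (2 * a + 1 - 1) / 2 = a
    omega
  have h1 := h x hxL hx hxX d (fun s hs i φ => by
    rcases Finset.mem_union.1 hs with h | h
    · obtain ⟨a, ha, rfl⟩ := Finset.mem_image.1 h
      rw [hd1 a ha]
      exact hc a ha i φ
    · rw [hd2 s h]
      exact he s h i φ) _ (Finset.mem_union_left I (Finset.mem_image_of_mem _ ha₀))
  rw [hd1 a₀ ha₀] at h1
  refine h1.trans (le_of_eq ?_)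
  congr 1
  rw [Finset.sum_union hdisj, hO, Finset.sum_image fun a _ b _ h => hinj a b h]
  congr 1
  · refine Finset.sum_congr rfl fun a ha => ?_
    rw [hd1 a ha, dz, mhz_eq]
  · refine Finset.sum_congr rfl fun s hs => ?_
    rw [hd2 s hs, mhz_eq]

end Pool.Agent.Results.MP_9206b6_nt.HurwitzArguments
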