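import Mathlib
import Pool.Agent.X90.DF.Sp

/-!
# MP_9206b6_nt: for almost all weights there are no sparse relations between double zeta values

For a weight `k` we consider the relations `∑ c_x ζ(x, k - x) + c_0 ζ(k) = 0` (`2 ≤ x ≤ k - 1`) with integers of absolute
value at most `C ^ k`, in particular the vectors in `R_k` (`x` odd, `c_0 = 0`, `k` even).

Theorem. Let `A` and `M` be numbers, `δ > 0`, `κ` and `C` arbitrary, and let `N` be large. For all but at most
`2 ^ A (A ^ 2 - 1)` of the `k ∈ [N, κ N]` every such relation, not all `c_x` zero, with `c_x = 0` for `A < x < δ k` has more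
than `M` nonzero coefficients `c_x` with `x > A`. In particular this holds for the nonzero integer vectors in `R_k` whose
entries at the first arguments between `A` and `δ k` vanish.

The number of the exceptional weights depends only on `A`, not on `M`, `δ`, `κ`, `C`; the set of the nonzero `c_x` with
`x ≥ δ k` is arbitrary. (For `δ < 1 / 6` and large even `k` there are nonzero vectors in `R_k` whose entries between `A`
and `δ k` vanish, since `dim R_k ≥ dim S_k`.) The starting result `AllWeights` concerns first arguments `≥ δ k` only; new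
are the small first arguments `2, 3, …, A`, whose values `ζ(2), ζ(3), ζ(5), …` enter by
`ζ(a, k - a) = ζ(a) ζ(k - a) - ζ(k - a, a) - ζ(k)`.

Proof (`Pool/Agent/X90/DF`). Let `t` be the number of the `a ≤ A` with `c_a ≠ 0`; if there are too many exceptional weights
we can choose `2 t + 1` of them with the same set of such `a` and with gaps `> A`. The vector of the numbers `ζ(a)` and `1`
is in the kernel of the matrices with the rows `(c_a ζ(k - a))_a, X_k`, where `X_k` is the combination of the remaining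
`ζ(x, k - x)`, `ζ(k)`. The determinants are relations of bounded height between products of multiple zeta values with
large first arguments, so they are consequences of the stuffle product (starting library, `Y760.ZF.mainM`), and vanish also
for the quasi-symmetric functions of any numbers `t_1, …, t_m`. If the power sums with the exponents `k_i - a` are
prescribed suitably, it follows first that `X_k` vanishes at all points with these power sums, then (exchange of two of the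
numbers) that its coefficients are symmetric, then that they are zero; and finally that `c_a = 0`.
-/

set_option autoImplicit false

namespace Pool.Agent.Results.MP_9206b6_nt.SparseRelations

/-- the double zeta value `ζ(a, b)`, the sum of `m ^ (-a) n ^ (-b)` over `m > n ≥ 1` -/
noncomputable def doubleZeta (a b : ℕ) : ℝ :=
  ∑' m : ℕ, (∑ n ∈ Finset.Ico 1 (m + 1), 1 / (n : ℝ) ^ b) / ((m + 1 : ℕ) : ℝ) ^ a

/-- `ζ(a)` -/
noncomputable def zeta (a : ℕ) : ℝ := ∑' m : ℕ, 1 / ((m + 1 : ℕ) : ℝ) ^ a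

/-- there is a relation `∑_{2 ≤ x < k} c_x ζ(x, k - x) + c_0 ζ(k) = 0` with integers of absolute value
at most `C ^ k`, not all `c_x` zero, `c_x = 0` for `A < x < δ k`, and `c_x ≠ 0` for at most `M` numbers
`x > A` -/
def SparseRelation (A M : ℕ) (δ C : ℝ) (k : ℕ) : Prop :=
  ∃ (c : ℕ → ℤ) (c0 : ℤ), (∃ x ∈ Finset.Ioo 1 k, c x ≠ 0) ∧
    ((Finset.Ioo 1 k).filter fun x => A < x ∧ c x ≠ 0).card ≤ M ∧
    (∀ x ∈ Finset.Ioo 1 k, A < x → (x : ℝ) < δ * k → c x = 0) ∧
    (∀ x ∈ Finset.Ioo 1 k, |(c x : ℝ)| ≤ C ^ k) ∧ |(c0 : ℝ)| ≤ C ^ k ∧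
    ∑ x ∈ Finset.Ioo 1 k, (c x : ℝ) * doubleZeta x (k - x) + c0 * zeta k = 0

/-- the space `R_k` of the `ℚ`-linear relations between the `ζ(x, k - x)`, `3 ≤ x ≤ k - 1`, `x` odd -/
noncomputable def R (k : ℕ) : Submodule ℚ (ℕ → ℚ) where
  carrier := {c | (∀ x, ¬ (Odd x ∧ 3 ≤ x ∧ x < k) → c x = 0) ∧
    ∑ x ∈ Finset.Ioo 1 k, (c x : ℝ) * doubleZeta x (k - x) = 0}
  add_mem' := by
    rintro c d ⟨h1, h2⟩ ⟨h3, h4⟩
    refine ⟨fun x hx => by rw [Pi.add_apply, h1 x hx, h3 x hx, add_zero], ?_⟩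
    simp only [Pi.add_apply, Rat.cast_add, add_mul, Finset.sum_add_distrib]
    rw [h2, h4, add_zero]
  zero_mem' := ⟨fun _ _ => rfl, by simp⟩
  smul_mem' := by
    rintro q c ⟨h1, h2⟩
    refine ⟨fun x hx => by rw [Pi.smul_apply, h1 x hx, smul_zero], ?_⟩
    simp only [Pi.smul_apply, smul_eq_mul, Rat.cast_mul, mul_assoc]
    rw [← Finset.mul_sum, h2, mul_zero]

/-- there is a nonzero vector `c` in `R_k` with integer entries of absolute value at most `C ^ k`,
`c_x = 0` for `A < x < δ k`, and `c_x ≠ 0` for at most `M` numbers `x > A` -/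
def SparseVector (A M : ℕ) (δ C : ℝ) (k : ℕ) : Prop :=
  ∃ c ∈ R k, c ≠ 0 ∧ (∀ x, ∃ z : ℤ, c x = z ∧ |(z : ℝ)| ≤ C ^ k) ∧
    (∀ x, A < x → (x : ℝ) < δ * k → c x = 0) ∧ {x | A < x ∧ c x ≠ 0}.ncard ≤ M

open Finset

theorem dz_eq (a b : ℕ) : doubleZeta a b = Pool.Agent.Y760.ZG.mz [a, b] := by
  rw [doubleZeta, Pool.Agent.Y760.ZG.mz]
  refine tsum_congr fun m => ?_
  rw [Pool.Agent.Y760.ZG.hr_cons]
  simp only [Pool.Agent.Y760.ZG.hr_nil]

theorem zeta_eq (a : ℕ) : zeta a = Pool.Agent.Y760.ZG.mz [a] := by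
  rw [zeta, Pool.Agent.Y760.ZG.mz]
  exact tsum_congr fun m => by rw [Pool.Agent.Y760.ZG.hr_nil]

theorem exc_of {A M k : ℕ} {δ C : ℝ} (h : SparseRelation A M δ C k) :
    Pool.Agent.X90.DF.Exc (max A 1) M δ C k := by
  obtain ⟨c, c0, h1, h2, h3, h4, h5, h6⟩ := h
  simp only [dz_eq, zeta_eq] at h6
  refine ⟨c, c0, h1, ?_, fun x hx hAx => h3 x hx ((le_max_left _ _).trans_lt hAx), h4, h5, h6⟩
  refine (card_le_card fun x hx => ?_).trans h2
  rw [mem_filter] at hx ⊢
  exact ⟨hx.1, (le_max_left _ _).trans_lt hx.2.1, hx.2.2⟩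

theorem rel_of {A M k : ℕ} {δ C : ℝ} (h : SparseVector A M δ C k) : SparseRelation A M δ C k := by
  classical
  obtain ⟨c, ⟨hc1, hc2⟩, hne, hz, h3, h4⟩ := h
  choose z hz1 hz2 using hz
  have hzero : ∀ x, z x ≠ 0 → c x ≠ 0 := fun x hx h0 => hx (by
    rw [hz1 x] at h0
    exact_mod_cast h0)
  have hIoo : ∀ x, c x ≠ 0 → x ∈ Ioo 1 k := by
    intro x hx
    by_contra h0
    apply hx
    apply hc1
    rintro ⟨-, g1, g2⟩
    exact h0 (mem_Ioo.2 ⟨by omega, g2⟩)
  refine ⟨z, 0, ?_, ?_, fun x _ hAx hx => ?_, fun x _ => hz2 x, ?_, ?_⟩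
  · obtain ⟨x, hx⟩ : ∃ x, c x ≠ 0 := by
      by_contra h
      push Not at h
      exact hne (funext h)
    refine ⟨x, hIoo x hx, fun h0 => hx ?_⟩
    rw [hz1 x, h0, Int.cast_zero]
  · have hfin : {x | A < x ∧ c x ≠ 0}.Finite :=
      (Ioo 1 k).finite_toSet.subset fun x hx => hIoo x hx.2
    rw [Set.ncard_eq_toFinset_card _ hfin] at h4
    refine (card_le_card fun x hx => ?_).trans h4
    rw [mem_filter] at hx
    rw [Set.Finite.mem_toFinset]
    exact ⟨hx.2.1, hzero x hx.2.2⟩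
  · have := h3 x hAx hx
    rw [hz1 x] at this
    exact_mod_cast this
  · rw [Int.cast_zero, abs_zero]
    exact (abs_nonneg _).trans (hz2 0)
  · rw [Int.cast_zero, zero_mul, add_zero, ← hc2]
    refine sum_congr rfl fun x _ => ?_
    rw [hz1 x, Rat.cast_intCast]

theorem main (A M κ : ℕ) (δ C : ℝ) (hδ : 0 < δ) : ∃ N0 : ℕ, ∀ N : ℕ, N0 ≤ N →
    {k : ℕ | (N ≤ k ∧ k ≤ κ * N) ∧ SparseRelation A M δ C k}.ncard ≤ 2 ^ A * (A ^ 2 - 1) := by
  classical
  obtain ⟨N0, hN0⟩ := Pool.Agent.X90.DF.sparse (max A 1) M κ (le_max_right _ _) δ C hδ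
  refine ⟨N0, fun N hN => ?_⟩
  have hfin : {k : ℕ | (N ≤ k ∧ k ≤ κ * N) ∧ SparseRelation A M δ C k}.Finite := by
    refine (Finset.Icc N (κ * N)).finite_toSet.subset ?_
    rintro s ⟨hs, -⟩
    exact Finset.mem_coe.2 (Finset.mem_Icc.2 hs)
  rw [Set.ncard_eq_toFinset_card _ hfin]
  have h1 := hN0 N hN hfin.toFinset fun k hk => by
    rw [Set.Finite.mem_toFinset] at hk
    exact ⟨hk.1, exc_of hk.2⟩
  refine h1.trans (le_of_eq ?_)
  rcases Nat.eq_zero_or_pos A with rfl | hA
  · rfl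
  · rw [max_eq_left hA]

/-- **Sparse relations between double zeta values are rare.** For all `A`, `M`, `κ`, `C`, all `δ > 0` and
all sufficiently large `N` at most `2 ^ A (A ^ 2 - 1)` of the `k ∈ [N, κ N]` have a relation as in
`SparseRelation`, in particular at most so many have a vector in `R_k` as in `SparseVector`. -/
theorem result (A M κ : ℕ) (δ C : ℝ) (hδ : 0 < δ) : ∃ N0 : ℕ, ∀ N : ℕ, N0 ≤ N →
    {k : ℕ | (N ≤ k ∧ k ≤ κ * N) ∧ SparseRelation A M δ C k}.ncard ≤ 2 ^ A * (A ^ 2 - 1) ∧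
    {k : ℕ | (N ≤ k ∧ k ≤ κ * N) ∧ SparseVector A M δ C k}.ncard ≤ 2 ^ A * (A ^ 2 - 1) := by
  obtain ⟨N0, h⟩ := main A M κ δ C hδ
  refine ⟨N0, fun N hN => ⟨h N hN, le_trans ?_ (h N hN)⟩⟩
  have hfin : {k : ℕ | (N ≤ k ∧ k ≤ κ * N) ∧ SparseRelation A M δ C k}.Finite := by
    refine (Finset.Icc N (κ * N)).finite_toSet.subset ?_
    rintro s ⟨hs, -⟩
    exact Finset.mem_coe.2 (Finset.mem_Icc.2 hs)
  exact Set.ncard_le_ncard (fun k hk => ⟨hk.1, rel_of hk.2⟩) hfin

end Pool.Agent.Results.MP_9206b6_nt.SparseRelations
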