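import Pool.Agent.Results.MP_9206b6_nt.SparseRelations
import Pool.Agent.X174.WinRank

/-!
# MP_9206b6_nt: no sparse relations between double zeta values, for ALL weights in windows around thin sequences

For a weight `k` we consider the relations `∑ c_x ζ(x, k - x) + c_0 ζ(k) = 0` (`2 ≤ x ≤ k - 1`) with integers of absolute
value at most `C ^ k`, in particular the vectors in `R_k` (`x` odd, `c_0 = 0`, `k` even).

Theorem. For every sequence `v ≥ 1` of exponent of convergence at most `τ` (for `v_i = (i + 1) ^ a` this is `1 / a`, for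
`v_i = b ^ i` it is `0`) and every `ρ < 1` there is ONE set `E ⊂ ℝ` of Hausdorff dimension at most `τ / (1 - ρ)` such that
for each `α > 0` outside `E`, all `A` and `M`, all `δ > 0` and all `C`, for all but finitely many `i`: for ALL weights `k`
with `|k - α v_i| ≤ v_i ^ ρ` every such relation, not all `c_x` zero, with `c_x = 0` for `A < x < δ k` has more than `M`
nonzero coefficients `c_x` with `x > A`. In particular this holds for the nonzero integer vectors in `R_k` whose entries at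
the first arguments between `A` and `δ k` vanish.

The number of exceptions in `[N, κ N]` is from the result `SparseRelations` of helper90.
-/

set_option autoImplicit false

namespace Pool.Agent.Results.MP_9206b6_nt.WeightsInWindows

open SparseRelations (doubleZeta zeta SparseRelation R SparseVector)

/-- the exponent of convergence of the sequence `v` is at most `τ` -/
def ExpLe (v : ℕ → ℝ) (τ : ℝ) : Prop := ∀ t : ℝ, τ < t → Summable (fun n : ℕ => (v n) ^ (-t))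

theorem rel_mono {A M : ℕ} {δ δ' C C' : ℝ} {k : ℕ} (hδ : δ' ≤ δ) (hC : C ^ k ≤ C' ^ k) (h : SparseRelation A M δ C k) :
    SparseRelation A M δ' C' k := by
  obtain ⟨c, c0, h1, h2, h3, h4, h5, h6⟩ := h
  exact ⟨c, c0, h1, h2, fun x hx hA hxδ => h3 x hx hA (hxδ.trans_le (mul_le_mul_of_nonneg_right hδ (Nat.cast_nonneg k))),
    fun x hx => (h4 x hx).trans hC, h5.trans hC, h6⟩

theorem vec_mono {A M : ℕ} {δ δ' C C' : ℝ} {k : ℕ} (hδ : δ' ≤ δ) (hC : C ^ k ≤ C' ^ k) (h : SparseVector A M δ C k) :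
    SparseVector A M δ' C' k := by
  obtain ⟨c, hc, h1, h2, h3, h4⟩ := h
  refine ⟨c, hc, h1, fun x => ?_, fun x hA hxδ => h3 x hA (hxδ.trans_le (mul_le_mul_of_nonneg_right hδ (Nat.cast_nonneg k))),
    h4⟩
  obtain ⟨z, hz1, hz2⟩ := h2 x
  exact ⟨z, hz1, hz2.trans hC⟩

/-- **No sparse relations between double zeta values, for all weights in windows.** For every sequence `v ≥ 1` of exponent of
convergence at most `τ ≥ 0` and every `ρ < 1` there is a set `E ⊂ ℝ` of Hausdorff dimension at most `τ / (1 - ρ)` such that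
for all `α > 0` outside `E`, all `A` and `M`, all `δ > 0` and all `C`, for all but finitely many `i`, NO `k` with
`|k - α v_i| ≤ v_i ^ ρ` has a relation as in `SparseRelation`, in particular none has a vector in `R_k` as in
`SparseVector`. The sequences `v_i = (i + 1) ^ a` and `v_i = b ^ i` have exponent of convergence at most `1 / a` and `0`. -/
theorem result :
    (∀ (v : ℕ → ℝ) (τ ρ : ℝ), (∀ i, 1 ≤ v i) → 0 ≤ τ → ExpLe v τ → ρ < 1 →
      ∃ E : Set ℝ, dimH E ≤ ENNReal.ofReal (τ / (1 - ρ)) ∧ ∀ α : ℝ, 0 < α → α ∉ E →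
        ∀ (A M : ℕ) (δ C : ℝ), 0 < δ → ∃ i₀ : ℕ, ∀ i : ℕ, i₀ ≤ i → ∀ k : ℕ, |(k : ℝ) - α * v i| ≤ (v i) ^ ρ →
          ¬ SparseRelation A M δ C k ∧ ¬ SparseVector A M δ C k) ∧
    (∀ a : ℝ, 0 < a → ExpLe (fun n : ℕ => ((n : ℝ) + 1) ^ a) (1 / a)) ∧
    (∀ b : ℝ, 1 < b → ExpLe (fun n : ℕ => b ^ n) 0) := by
  refine ⟨fun v τ ρ hv hτ hE hρ => ?_, fun κ hκ => Pool.Agent.Y854.GM.expLe_pow κ hκ,
    fun b hb => Pool.Agent.Y854.GM.expLe_geom b hb⟩
  have key : ∀ z : ℕ × ℕ × ℕ, ∃ E : Set ℝ, dimH E ≤ ENNReal.ofReal (τ / (1 - ρ)) ∧ ∀ α : ℝ, 0 < α → α ∉ E →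
      ∀ c : ℝ, 1 < c → ∃ i₀ : ℕ, ∀ i : ℕ, i₀ ≤ i → ∀ k : ℕ, |(k : ℝ) - α * v i| ≤ (v i) ^ ρ →
        (¬ SparseRelation z.1 z.2.1 (1 / ((z.2.2 : ℝ) + 1)) c k ∧ ¬ SparseVector z.1 z.2.1 (1 / ((z.2.2 : ℝ) + 1)) c k) := by
    rintro ⟨A, M, n⟩
    dsimp only
    have hn : (0 : ℝ) < 1 / ((n : ℝ) + 1) := by positivity
    refine Pool.Agent.X174.winRank (fun c k => ¬ SparseRelation A M (1 / ((n : ℝ) + 1)) c k ∧
      ¬ SparseVector A M (1 / ((n : ℝ) + 1)) c k) ?_ ?_ hv hτ hE hρ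
    · intro c₁ c c₂ k h1 h2 h3 _ h5
      have h6 : c ^ k ≤ c₂ ^ k := pow_le_pow_left₀ (by linarith) h3 k
      exact ⟨fun h => h5.1 (rel_mono le_rfl h6 h), fun h => h5.2 (vec_mono le_rfl h6 h)⟩
    · intro κ
      refine ⟨2 ^ A * (A ^ 2 - 1) + 2 ^ A * (A ^ 2 - 1), fun c _ => ?_⟩
      obtain ⟨N0, hN0⟩ := SparseRelations.result A M κ (1 / ((n : ℝ) + 1)) c hn
      refine ⟨N0, fun N hN => ?_⟩
      obtain ⟨h1, h2⟩ := hN0 N hN
      have h3 : {k : ℕ | (N ≤ k ∧ k ≤ κ * N) ∧ ¬ (¬ SparseRelation A M (1 / ((n : ℝ) + 1)) c k ∧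
            ¬ SparseVector A M (1 / ((n : ℝ) + 1)) c k)} ⊆
          {k : ℕ | (N ≤ k ∧ k ≤ κ * N) ∧ SparseRelation A M (1 / ((n : ℝ) + 1)) c k} ∪
          {k : ℕ | (N ≤ k ∧ k ≤ κ * N) ∧ SparseVector A M (1 / ((n : ℝ) + 1)) c k} := by
        rintro k ⟨hk, h4⟩
        by_cases h5 : SparseRelation A M (1 / ((n : ℝ) + 1)) c k
        · exact Or.inl ⟨hk, h5⟩
        · refine Or.inr ⟨hk, ?_⟩
          by_contra h6
          exact h4 ⟨h5, h6⟩
      have hfin : ({k : ℕ | (N ≤ k ∧ k ≤ κ * N) ∧ SparseRelation A M (1 / ((n : ℝ) + 1)) c k} ∪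
          {k : ℕ | (N ≤ k ∧ k ≤ κ * N) ∧ SparseVector A M (1 / ((n : ℝ) + 1)) c k}).Finite := by
        refine (Set.finite_Iic (κ * N)).subset ?_
        rintro k (hk | hk)
        · exact hk.1.2
        · exact hk.1.2
      exact (Set.ncard_le_ncard h3 hfin).trans ((Set.ncard_union_le _ _).trans (add_le_add h1 h2))
  choose Es h1 h2 using key
  refine ⟨⋃ z, Es z, ?_, fun α hα0 hα A M δ C hδ => ?_⟩
  · rw [dimH_iUnion]
    exact iSup_le h1
  · obtain ⟨n, hn⟩ := exists_nat_ge (1 / δ)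
    have hnδ : 1 / ((n : ℝ) + 1) ≤ δ := by
      rw [div_le_iff₀ hδ] at hn
      rw [div_le_iff₀ (by positivity)]
      nlinarith
    have hC1 : (1 : ℝ) < |C| + 2 := by linarith [abs_nonneg C]
    obtain ⟨i₀, hi₀⟩ := h2 ⟨A, M, n⟩ α hα0 (fun hm => hα (Set.mem_iUnion.2 ⟨_, hm⟩)) (|C| + 2) hC1
    refine ⟨i₀, fun i hi k hk => ?_⟩
    obtain ⟨h3, h4⟩ := hi₀ i hi k hk
    have h5 : C ^ k ≤ (|C| + 2) ^ k := by
      calc C ^ k ≤ |C ^ k| := le_abs_self _
        _ = |C| ^ k := abs_pow C k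
        _ ≤ (|C| + 2) ^ k := pow_le_pow_left₀ (abs_nonneg C) (by linarith) k
    exact ⟨fun h => h3 (rel_mono hnδ h5 h), fun h => h4 (vec_mono hnδ h5 h)⟩

end Pool.Agent.Results.MP_9206b6_nt.WeightsInWindows
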